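import Pool.Agent.Helper1.TE.Goals3

/-!
Project TE (MP_8b4d68_lc): packet AS2.
-/

set_option autoImplicit false

namespace Pool.Agent.Helper49.TE

open Pool.Agent.Helper1.TE

theorem full_len {ok : ℕ → ℕ → ℕ} {w : List Bool} {h b : ℕ} (hf : Full ok w h b) :
    1 ≤ h ∧ 1 ≤ b ∧ 2 ^ h ≤ w.length ∧ 4 ^ b ≤ w.length := by
  obtain ⟨⟨_, _, h1, h2, _⟩, hlen⟩ := hf
  refine ⟨h1, h2, ?_, ?_⟩
  · rw [hlen]
    have h3 : 2 ^ h ≤ blocks h b := by
      unfold blocks
      exact Nat.le_add_right _ _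
    have h4 : blocks h b * 1 ≤ blocks h b * b := Nat.mul_le_mul_left _ h2
    omega
  · rw [hlen]
    have h3 : 4 ^ b ≤ blocks h b := by
      unfold blocks
      have h5 : 2 ≤ 2 ^ h := by
        calc 2 = 2 ^ 1 := by norm_num
          _ ≤ 2 ^ h := Nat.pow_le_pow_right (by norm_num) h1
      have h6 : 1 * 4 ^ b ≤ (2 ^ h - 1) * 4 ^ b := Nat.mul_le_mul_right _ (by omega)
      omega
    have h4 : blocks h b * 1 ≤ blocks h b * b := Nat.mul_le_mul_left _ h2
    omega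

theorem full_log {ok : ℕ → ℕ → ℕ} {w : List Bool} {h b : ℕ} (hf : Full ok w h b) :
    (h : ℝ) ≤ 2 * Real.log w.length ∧ (b : ℝ) ≤ Real.log w.length ∧ 0 ≤ Real.log w.length := by
  obtain ⟨_, _, h3, h4⟩ := full_len hf
  have hl2 : (1 : ℝ) / 2 < Real.log 2 := by
    have := Real.log_two_gt_d9
    linarith
  have e1 : (h : ℝ) * Real.log 2 ≤ Real.log w.length := by
    rw [← Real.log_pow]
    exact Real.log_le_log (by positivity) (by exact_mod_cast h3)
  have e2 : (b : ℝ) * (2 * Real.log 2) ≤ Real.log w.length := by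
    have h5 : Real.log 4 = 2 * Real.log 2 := by
      rw [show (4 : ℝ) = 2 ^ 2 by norm_num, Real.log_pow]
      push_cast
      ring
    rw [← h5, ← Real.log_pow]
    exact Real.log_le_log (by positivity) (by exact_mod_cast h4)
  have hh : (0 : ℝ) ≤ h := Nat.cast_nonneg h
  have hb : (0 : ℝ) ≤ b := Nat.cast_nonneg b
  refine ⟨by nlinarith, by nlinarith, ?_⟩
  refine le_trans ?_ e1
  positivity

theorem log_le_nat (b : ℕ) (hb : 1 ≤ b) : Real.log b ≤ Nat.log 2 b + 1 := by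
  have h1 : b < 2 ^ (Nat.log 2 b + 1) := Nat.lt_pow_succ_log_self (by norm_num) b
  have h2 : (b : ℝ) ≤ 2 ^ (Nat.log 2 b + 1) := by exact_mod_cast h1.le
  have h3 : Real.log b ≤ Real.log (2 ^ (Nat.log 2 b + 1)) :=
    Real.log_le_log (by exact_mod_cast hb) h2
  rw [Real.log_pow] at h3
  have h4 : Real.log 2 ≤ 1 := by
    have := Real.log_two_lt_d9
    linarith
  push_cast at h3
  have h5 : ((Nat.log 2 b : ℝ) + 1) * Real.log 2 ≤ ((Nat.log 2 b : ℝ) + 1) * 1 := by
    gcongr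
  linarith

theorem gAS2 : GoalAS2 := by
  intro D
  refine ⟨3 + √(4 * D + 2), by positivity, ?_⟩
  intro ok w h b hf hD
  obtain ⟨_, hb1, _, _⟩ := full_len hf
  obtain ⟨e1, e2, e3⟩ := full_log hf
  set L : ℝ := Real.log w.length with hL
  have hh : (0 : ℝ) ≤ h := Nat.cast_nonneg h
  have hb : (0 : ℝ) ≤ b := Nat.cast_nonneg b
  have h1 := log_le_nat b hb1
  have h2 : (b : ℝ) * Nat.log 2 b ≤ D * h := by exact_mod_cast hD
  have h3 : (b : ℝ) * Real.log b ≤ D * h + b := by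
    calc (b : ℝ) * Real.log b ≤ b * (Nat.log 2 b + 1) := mul_le_mul_of_nonneg_left h1 hb
      _ = b * Nat.log 2 b + b := by ring
      _ ≤ D * h + b := by linarith
  have h4 : (h : ℝ) * b * Real.log b ≤ (4 * D + 2) * L ^ 2 := by
    have hD0 : (0 : ℝ) ≤ D := Nat.cast_nonneg D
    calc (h : ℝ) * b * Real.log b = h * (b * Real.log b) := by ring
      _ ≤ h * (D * h + b) := mul_le_mul_of_nonneg_left h3 hh
      _ ≤ (2 * L) * (D * (2 * L) + L) := by gcongr
      _ = (4 * D + 2) * L ^ 2 := by ring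
  have h5 : √((h : ℝ) * b * Real.log b) ≤ √(4 * D + 2) * L := by
    calc √((h : ℝ) * b * Real.log b) ≤ √((4 * D + 2) * L ^ 2) := Real.sqrt_le_sqrt h4
      _ = √(4 * D + 2) * L := by
        rw [Real.sqrt_mul (by positivity), Real.sqrt_sq e3]
  calc (h : ℝ) + b + √(h * b * Real.log b) ≤ 2 * L + L + √(4 * D + 2) * L := by
        linarith
    _ = (3 + √(4 * D + 2)) * L := by ring

end Pool.Agent.Helper49.TE
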