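import Pool.Agent.Helper1.TE.Goals2

/-!
Project TE (MP_8b4d68_lc): packet EA.
-/

set_option autoImplicit false

namespace Pool.Agent.Helper49.TE

open Pool.Agent.Helper1.TE

theorem gEA : GoalEA := by
  intro hCT h b W hW
  funext p i
  have hb : ∀ a p i, bitc b a p i < 2 := fun a p i => Nat.mod_lt _ (by norm_num)
  unfold cM
  rw [hCT W 2 (sP h b) (fun t => bitc b (seed b W) p (i * sP h b + t)) (fun t _ => hb _ _ _) hW]
  rfl

end Pool.Agent.Helper49.TE
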